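import Pool.Agent.L5helper16.LG.Defs

/-! LG B7: the second moment method. -/

set_option autoImplicit false

namespace Pool.Agent.L5helper50.LG

open Finset MeasureTheory ProbabilityTheory

theorem b7_core {Ω : Type} [MeasurableSpace Ω] (P : Measure Ω) [IsProbabilityMeasure P] (K : Finset ℕ)
    (E : ℕ → Set Ω) (hE : ∀ u ∈ K, MeasurableSet (E u)) (δ : ℝ) (hδ : 0 ≤ δ) (hμ : 0 < ∑ u ∈ K, P.real (E u))
    (hEE : ∀ u ∈ K, ∀ v ∈ K, u ≠ v → P.real (E u ∩ E v) ≤ (1 + δ) * (P.real (E u) * P.real (E v))) :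
    P.real (⋂ u ∈ K, (E u)ᶜ) ≤ 1 / (∑ u ∈ K, P.real (E u)) + δ := by
  classical
  set μ : ℝ := ∑ u ∈ K, P.real (E u) with hμdef
  set A : Set Ω := ⋂ u ∈ K, (E u)ᶜ with hA
  have hAm : MeasurableSet A := Finset.measurableSet_biInter K (fun u hu => (hE u hu).compl)
  have key : ∀ ω, μ ^ 2 * A.indicator (fun _ => (1 : ℝ)) ω ≤
      (∑ u ∈ K, ∑ v ∈ K, (E u ∩ E v).indicator (fun _ => (1 : ℝ)) ω) -
        2 * μ * (∑ u ∈ K, (E u).indicator (fun _ => (1 : ℝ)) ω) + μ ^ 2 := by
    intro ω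
    have h1 : (∑ u ∈ K, ∑ v ∈ K, (E u ∩ E v).indicator (fun _ => (1 : ℝ)) ω) =
        (∑ u ∈ K, (E u).indicator (fun _ => (1 : ℝ)) ω) ^ 2 := by
      rw [sq, Finset.sum_mul_sum]
      refine sum_congr rfl fun u _ => sum_congr rfl fun v _ => ?_
      by_cases h1 : ω ∈ E u <;> by_cases h2 : ω ∈ E v <;> simp [h1, h2]
    rw [h1]
    set N := ∑ u ∈ K, (E u).indicator (fun _ => (1 : ℝ)) ω with hN
    by_cases h : ω ∈ A
    · have h0 : N = 0 := by
        rw [hN]
        refine Finset.sum_eq_zero fun u hu => ?_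
        have h2 : ω ∉ E u := Set.mem_iInter₂.1 h u hu
        exact Set.indicator_of_notMem h2 _
      rw [Set.indicator_of_mem h, h0]
      nlinarith
    · rw [Set.indicator_of_notMem h]
      nlinarith [sq_nonneg (N - μ)]
  have hint : ∀ S : Set Ω, MeasurableSet S → Integrable (S.indicator (fun _ => (1 : ℝ))) P :=
    fun S hS => (integrable_const (1 : ℝ)).indicator hS
  have hval : ∀ S : Set Ω, MeasurableSet S → ∫ ω, S.indicator (fun _ => (1 : ℝ)) ω ∂P = P.real S := by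
    intro S hS
    rw [integral_indicator hS, setIntegral_const, smul_eq_mul, mul_one]
  have i1 : Integrable (fun ω => ∑ u ∈ K, ∑ v ∈ K, (E u ∩ E v).indicator (fun _ => (1 : ℝ)) ω) P :=
    integrable_finsetSum _ fun u hu => integrable_finsetSum _ fun v hv =>
      hint _ ((hE u hu).inter (hE v hv))
  have i2 : Integrable (fun ω => 2 * μ * (∑ u ∈ K, (E u).indicator (fun _ => (1 : ℝ)) ω)) P :=
    (integrable_finsetSum _ fun u hu => hint _ (hE u hu)).const_mul _
  have h1 := integral_mono ((hint A hAm).const_mul (μ ^ 2)) ((i1.sub i2).add (integrable_const (μ ^ 2))) key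
  have e1 : ∫ ω, μ ^ 2 * A.indicator (fun _ => (1 : ℝ)) ω ∂P = μ ^ 2 * P.real A := by
    rw [integral_const_mul, hval A hAm]
  have e2 : ∫ ω, ((∑ u ∈ K, ∑ v ∈ K, (E u ∩ E v).indicator (fun _ => (1 : ℝ)) ω) -
        2 * μ * (∑ u ∈ K, (E u).indicator (fun _ => (1 : ℝ)) ω) + μ ^ 2) ∂P =
      (∑ u ∈ K, ∑ v ∈ K, P.real (E u ∩ E v)) - 2 * μ * μ + μ ^ 2 := by
    have s1 : ∫ ω, (∑ u ∈ K, ∑ v ∈ K, (E u ∩ E v).indicator (fun _ => (1 : ℝ)) ω) ∂P =
        ∑ u ∈ K, ∑ v ∈ K, P.real (E u ∩ E v) := by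
      rw [integral_finsetSum _ fun u hu => integrable_finsetSum _ fun v hv =>
        hint _ ((hE u hu).inter (hE v hv))]
      refine sum_congr rfl fun u hu => ?_
      rw [integral_finsetSum _ fun v hv => hint _ ((hE u hu).inter (hE v hv))]
      exact sum_congr rfl fun v hv => hval _ ((hE u hu).inter (hE v hv))
    have s2 : ∫ ω, (∑ u ∈ K, (E u).indicator (fun _ => (1 : ℝ)) ω) ∂P = μ := by
      rw [integral_finsetSum _ fun u hu => hint _ (hE u hu)]
      exact sum_congr rfl fun u hu => hval _ (hE u hu)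
    have a1 := integral_add (i1.sub i2) (integrable_const (μ := P) (μ ^ 2))
    have a2 := integral_sub i1 i2
    simp only [Pi.sub_apply] at a1 a2
    rw [a1, a2, s1, integral_const_mul, s2, integral_const]
    simp
  have h2 : μ ^ 2 * P.real A ≤ (∑ u ∈ K, ∑ v ∈ K, P.real (E u ∩ E v)) - 2 * μ * μ + μ ^ 2 := by
    rw [← e1, ← e2]
    exact h1
  have h3 : (∑ u ∈ K, ∑ v ∈ K, P.real (E u ∩ E v)) ≤ μ + (1 + δ) * μ ^ 2 := by
    have h4 : ∀ u ∈ K, ∀ v ∈ K, P.real (E u ∩ E v) ≤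
        (if u = v then P.real (E u) else 0) + (1 + δ) * (P.real (E u) * P.real (E v)) := by
      intro u hu v hv
      by_cases huv : u = v
      · subst huv
        rw [if_pos rfl, Set.inter_self]
        have := measureReal_nonneg (μ := P) (s := E u)
        have h5 : 0 ≤ (1 + δ) * (P.real (E u) * P.real (E u)) := by positivity
        linarith
      · rw [if_neg huv, zero_add]
        exact hEE u hu v hv huv
    calc (∑ u ∈ K, ∑ v ∈ K, P.real (E u ∩ E v))
        ≤ ∑ u ∈ K, ∑ v ∈ K, ((if u = v then P.real (E u) else 0) + (1 + δ) * (P.real (E u) * P.real (E v))) :=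
          sum_le_sum fun u hu => sum_le_sum fun v hv => h4 u hu v hv
      _ = μ + (1 + δ) * μ ^ 2 := by
          simp_rw [sum_add_distrib]
          congr 1
          · rw [hμdef]
            refine sum_congr rfl fun u hu => ?_
            rw [Finset.sum_ite_eq, if_pos hu]
          · rw [sq, hμdef, Finset.sum_mul_sum, mul_sum]
            refine sum_congr rfl fun u _ => ?_
            rw [mul_sum]
  have h5 : μ ^ 2 * P.real A ≤ μ + δ * μ ^ 2 := by nlinarith
  have h6 : P.real A ≤ (μ + δ * μ ^ 2) / μ ^ 2 := by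
    rw [le_div_iff₀ (by positivity)]
    linarith
  refine h6.trans (le_of_eq ?_)
  field_simp

theorem b7 : Pool.Agent.L5helper16.LG.St_B7 := by
  intro Ω _ P _ K E hE δ hδ hμ hEE
  exact b7_core P K E hE δ hδ hμ hEE

end Pool.Agent.L5helper50.LG
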