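import Pool.Agent.L5helper16.LG.Defs3

/-! LG B9: the second moment method, lower bound for the number of the events. -/

set_option autoImplicit false

namespace Pool.Agent.L5helper50.LG

open Finset MeasureTheory ProbabilityTheory

/-- the second moment bound on a set where the number of events is far from the mean -/
theorem b9_core {Ω : Type} [MeasurableSpace Ω] (P : Measure Ω) [IsProbabilityMeasure P] (K : Finset ℕ)
    (E : ℕ → Set Ω) (hE : ∀ u ∈ K, MeasurableSet (E u)) (δ : ℝ) (hδ : 0 ≤ δ) (μ c : ℝ)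
    (hμ : μ = ∑ u ∈ K, P.real (E u))
    (hEE : ∀ u ∈ K, ∀ v ∈ K, u ≠ v → P.real (E u ∩ E v) ≤ (1 + δ) * (P.real (E u) * P.real (E v)))
    (A : Set Ω) (hAm : MeasurableSet A)
    (hA : ∀ ω ∈ A, c ≤ ((∑ u ∈ K, (E u).indicator (fun _ => (1 : ℝ)) ω) - μ) ^ 2) :
    c * P.real A ≤ μ + δ * μ ^ 2 := by
  classical
  have key : ∀ ω, c * A.indicator (fun _ => (1 : ℝ)) ω ≤
      (∑ u ∈ K, ∑ v ∈ K, (E u ∩ E v).indicator (fun _ => (1 : ℝ)) ω) -
        2 * μ * (∑ u ∈ K, (E u).indicator (fun _ => (1 : ℝ)) ω) + μ ^ 2 := by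
    intro ω
    have h1 : (∑ u ∈ K, ∑ v ∈ K, (E u ∩ E v).indicator (fun _ => (1 : ℝ)) ω) =
        (∑ u ∈ K, (E u).indicator (fun _ => (1 : ℝ)) ω) ^ 2 := by
      rw [sq, Finset.sum_mul_sum]
      refine sum_congr rfl fun u _ => sum_congr rfl fun v _ => ?_
      by_cases h1 : ω ∈ E u <;> by_cases h2 : ω ∈ E v <;> simp [h1, h2]
    have h2 := hA ω
    rw [h1]
    set N := ∑ u ∈ K, (E u).indicator (fun _ => (1 : ℝ)) ω with hN
    by_cases h : ω ∈ A
    · rw [Set.indicator_of_mem h]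
      nlinarith [h2 h]
    · rw [Set.indicator_of_notMem h]
      nlinarith [sq_nonneg (N - μ)]
  have hint : ∀ S : Set Ω, MeasurableSet S → Integrable (S.indicator (fun _ => (1 : ℝ))) P :=
    fun S hS => (integrable_const (1 : ℝ)).indicator hS
  have hval : ∀ S : Set Ω, MeasurableSet S → ∫ ω, S.indicator (fun _ => (1 : ℝ)) ω ∂P = P.real S := by
    intro S hS
    rw [integral_indicator hS, setIntegral_const, smul_eq_mul, mul_one]
  have i1 : Integrable (fun ω => ∑ u ∈ K, ∑ v ∈ K, (E u ∩ E v).indicator (fun _ => (1 : ℝ)) ω) P :=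
    integrable_finsetSum _ fun u hu => integrable_finsetSum _ fun v hv =>
      hint _ ((hE u hu).inter (hE v hv))
  have i2 : Integrable (fun ω => 2 * μ * (∑ u ∈ K, (E u).indicator (fun _ => (1 : ℝ)) ω)) P :=
    (integrable_finsetSum _ fun u hu => hint _ (hE u hu)).const_mul _
  have h1 := integral_mono ((hint A hAm).const_mul c) ((i1.sub i2).add (integrable_const (μ ^ 2))) key
  have e1 : ∫ ω, c * A.indicator (fun _ => (1 : ℝ)) ω ∂P = c * P.real A := by
    rw [integral_const_mul, hval A hAm]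
  have e2 : ∫ ω, ((∑ u ∈ K, ∑ v ∈ K, (E u ∩ E v).indicator (fun _ => (1 : ℝ)) ω) -
        2 * μ * (∑ u ∈ K, (E u).indicator (fun _ => (1 : ℝ)) ω) + μ ^ 2) ∂P =
      (∑ u ∈ K, ∑ v ∈ K, P.real (E u ∩ E v)) - 2 * μ * μ + μ ^ 2 := by
    have s1 : ∫ ω, (∑ u ∈ K, ∑ v ∈ K, (E u ∩ E v).indicator (fun _ => (1 : ℝ)) ω) ∂P =
        ∑ u ∈ K, ∑ v ∈ K, P.real (E u ∩ E v) := by
      rw [integral_finsetSum _ fun u hu => integrable_finsetSum _ fun v hv =>
        hint _ ((hE u hu).inter (hE v hv))]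
      refine sum_congr rfl fun u hu => ?_
      rw [integral_finsetSum _ fun v hv => hint _ ((hE u hu).inter (hE v hv))]
      exact sum_congr rfl fun v hv => hval _ ((hE u hu).inter (hE v hv))
    have s2 : ∫ ω, (∑ u ∈ K, (E u).indicator (fun _ => (1 : ℝ)) ω) ∂P = μ := by
      rw [integral_finsetSum _ fun u hu => hint _ (hE u hu)]
      rw [hμ]
      exact sum_congr rfl fun u hu => hval _ (hE u hu)
    have a1 := integral_add (i1.sub i2) (integrable_const (μ := P) (μ ^ 2))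
    have a2 := integral_sub i1 i2
    simp only [Pi.sub_apply] at a1 a2
    rw [a1, a2, s1, integral_const_mul, s2, integral_const]
    simp
  have h2 : c * P.real A ≤ (∑ u ∈ K, ∑ v ∈ K, P.real (E u ∩ E v)) - 2 * μ * μ + μ ^ 2 := by
    rw [← e1, ← e2]
    exact h1
  have h3 : (∑ u ∈ K, ∑ v ∈ K, P.real (E u ∩ E v)) ≤ μ + (1 + δ) * μ ^ 2 := by
    have h4 : ∀ u ∈ K, ∀ v ∈ K, P.real (E u ∩ E v) ≤
        (if u = v then P.real (E u) else 0) + (1 + δ) * (P.real (E u) * P.real (E v)) := by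
      intro u hu v hv
      by_cases huv : u = v
      · subst huv
        rw [if_pos rfl, Set.inter_self]
        have := measureReal_nonneg (μ := P) (s := E u)
        have h5 : 0 ≤ (1 + δ) * (P.real (E u) * P.real (E u)) := by positivity
        linarith
      · rw [if_neg huv, zero_add]
        exact hEE u hu v hv huv
    calc (∑ u ∈ K, ∑ v ∈ K, P.real (E u ∩ E v))
        ≤ ∑ u ∈ K, ∑ v ∈ K, ((if u = v then P.real (E u) else 0) + (1 + δ) * (P.real (E u) * P.real (E v))) :=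
          sum_le_sum fun u hu => sum_le_sum fun v hv => h4 u hu v hv
      _ = μ + (1 + δ) * μ ^ 2 := by
          simp_rw [sum_add_distrib]
          congr 1
          · rw [hμ]
            refine sum_congr rfl fun u hu => ?_
            rw [Finset.sum_ite_eq, if_pos hu]
          · rw [sq, hμ, Finset.sum_mul_sum, mul_sum]
            refine sum_congr rfl fun u _ => ?_
            rw [mul_sum]
  nlinarith

theorem b9 : Pool.Agent.L5helper16.LG.St_B9 := by
  intro Ω _ P _ K E hE δ hδ hμ hEE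
  classical
  set μ : ℝ := ∑ u ∈ K, P.real (E u) with hμdef
  have hN : ∀ ω, (#(K.filter fun u => ω ∈ E u) : ℝ) = ∑ u ∈ K, (E u).indicator (fun _ => (1 : ℝ)) ω := by
    intro ω
    rw [Finset.card_filter]
    push_cast
    refine sum_congr rfl fun u _ => ?_
    by_cases h : ω ∈ E u <;> simp [h]
  have hNm : Measurable (fun ω => ∑ u ∈ K, (E u).indicator (fun _ => (1 : ℝ)) ω) :=
    Finset.measurable_sum K fun u hu => measurable_const.indicator (hE u hu)
  have hset : {ω | (#(K.filter fun u => ω ∈ E u) : ℝ) < μ / 2} =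
      (fun ω => ∑ u ∈ K, (E u).indicator (fun _ => (1 : ℝ)) ω) ⁻¹' Set.Iio (μ / 2) := by
    ext ω
    simp only [Set.mem_ofPred_eq, Set.mem_preimage, Set.mem_Iio]
    rw [hN ω]
  rw [hset]
  have h1 := b9_core P K E hE δ hδ μ (μ ^ 2 / 4) hμdef hEE
    ((fun ω => ∑ u ∈ K, (E u).indicator (fun _ => (1 : ℝ)) ω) ⁻¹' Set.Iio (μ / 2))
    (hNm measurableSet_Iio) (by
      intro ω hω
      have h2 : ∑ u ∈ K, (E u).indicator (fun _ => (1 : ℝ)) ω < μ / 2 := hω
      nlinarith)
  have h2 : (4 * (1 / μ + δ)) * (μ ^ 2 / 4) = μ + δ * μ ^ 2 := by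
    field_simp
  have h3 : 0 < μ ^ 2 / 4 := by positivity
  nlinarith

end Pool.Agent.L5helper50.LG
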